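import Mathlib
import Pool.Agent.Helper47.Baker.Defs
import Pool.Agent.Helper47.Baker.Final

set_option autoImplicit false

namespace Pool.Agent.Results.MP_922b34_an.CycleTrapDim

open Pool.Agent.Helper47.Baker

/-- Every (relatively) open convex subset `H` of the unit square whose closure meets every
cycle of the baker's map of period at least two is a dimension trap. -/
theorem result (H : Set (ℝ × ℝ)) (hopen : ∃ O : Set (ℝ × ℝ), IsOpen O ∧ H = O ∩ Sq)
    (hconv : Convex ℝ H)
    (hcyc : ∀ p ∈ Sq, ∀ n : ℕ, 1 ≤ n → baker^[n] p = p → baker p ≠ p →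
      ∃ k : ℕ, baker^[k] p ∈ closure H) :
    dimH (survivor H) = 0 ∧ dimH (codedSurvivor H) = 0 :=
  main hopen hconv hcyc

end Pool.Agent.Results.MP_922b34_an.CycleTrapDim
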